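import Pool.Agent.Lib.MP_0ee9ff_an.Orbit5

namespace Pool.Agent.FS.RowCol

open MeasureTheory Set Filter Topology ContinuousLinearMap Pool.Agent.Lib.MP_0ee9ff_an
open scoped ENNReal InnerProductSpace ComplexConjugate

section abstract

variable {H : Type*} [NormedAddCommGroup H] [InnerProductSpace ℂ H] [CompleteSpace H]

theorem exists_coef (α β : ℂ) : ∃ s t : ℂ, conj s * s + conj t * t = 1 ∧ s * α + t * β = 0 ∧
    ‖s‖ ≤ 1 ∧ ‖t‖ ≤ 1 := by
  by_cases h : α = 0
  · exact ⟨1, 0, by simp, by simp [h], by simp, by simp⟩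
  have h1 : 0 < ‖α‖ := norm_pos_iff.2 h
  have h2 : 0 < ‖α‖ ^ 2 + ‖β‖ ^ 2 := by positivity
  set r : ℝ := Real.sqrt (‖α‖ ^ 2 + ‖β‖ ^ 2) with hr
  have h3 : 0 < r := Real.sqrt_pos.2 h2
  have h4 : r ^ 2 = ‖α‖ ^ 2 + ‖β‖ ^ 2 := Real.sq_sqrt h2.le
  have h5 : (r : ℂ) ≠ 0 := by exact_mod_cast h3.ne'
  have h6 : (r : ℂ) ^ 2 = (‖α‖ : ℂ) ^ 2 + (‖β‖ : ℂ) ^ 2 := by exact_mod_cast h4
  refine ⟨-β / r, α / r, ?_, by field_simp; ring, ?_, ?_⟩
  · rw [map_div₀, map_div₀, map_neg, Complex.conj_ofReal]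
    have e1 := Complex.conj_mul' α
    have e2 := Complex.conj_mul' β
    field_simp
    rw [h6]
    linear_combination e1 + e2
  · rw [norm_div, norm_neg, Complex.norm_real, Real.norm_of_nonneg h3.le, div_le_one h3]
    exact Real.le_sqrt_of_sq_le (by nlinarith)
  · rw [norm_div, Complex.norm_real, Real.norm_of_nonneg h3.le, div_le_one h3]
    exact Real.le_sqrt_of_sq_le (by nlinarith)

omit [CompleteSpace H] in
theorem exists_perp_seq (A : H →L[ℂ] H) (f : ℕ → H) (hf : Orthonormal ℂ f)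
    (hA : Tendsto (fun n => A (f n)) atTop (𝓝 0)) (x : H) {ε : ℝ} (hε : 0 < ε) :
    ∃ g : ℕ → H, Orthonormal ℂ g ∧ (∀ n, ⟪x, g n⟫_ℂ = 0) ∧
      ∀ n, ‖A (g n)‖ ^ 2 ≤ ε / 2 / 2 ^ n := by
  have h1 : ∀ k : ℕ, ∀ᶠ n in atTop, ‖A (f n)‖ < Real.sqrt (ε / 2 / 2 ^ (k / 2)) / 2 := fun k =>
    (tendsto_zero_iff_norm_tendsto_zero.1 hA).eventually (gt_mem_nhds (by positivity))
  obtain ⟨φ, hφ, h2⟩ := extraction_forall_of_eventually h1
  have hf' := orthonormal_iff_ite.1 (hf.comp φ hφ.injective)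
  simp only [Function.comp_apply] at hf'
  choose s t k1 k2 k3 k4 using fun n : ℕ =>
    exists_coef ⟪x, f (φ (2 * n))⟫_ℂ ⟪x, f (φ (2 * n + 1))⟫_ℂ
  refine ⟨fun n => s n • f (φ (2 * n)) + t n • f (φ (2 * n + 1)), ?_, fun n => ?_, fun n => ?_⟩
  · rw [orthonormal_iff_ite]
    intro i j
    simp only [inner_add_left, inner_add_right, inner_smul_left, inner_smul_right, hf']
    rw [if_neg (by omega : ¬ 2 * i + 1 = 2 * j), if_neg (by omega : ¬ 2 * i = 2 * j + 1)]
    by_cases h : i = j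
    · subst h
      simp only [if_true]
      linear_combination k1 i
    · rw [if_neg (by omega : ¬ 2 * i = 2 * j), if_neg (by omega : ¬ 2 * i + 1 = 2 * j + 1),
        if_neg h]
      ring
  · simp only [inner_add_right, inner_smul_right]
    exact k2 n
  · have a1 := h2 (2 * n)
    have a2 := h2 (2 * n + 1)
    rw [show 2 * n / 2 = n by omega] at a1
    rw [show (2 * n + 1) / 2 = n by omega] at a2
    have a3 : ‖A (s n • f (φ (2 * n)) + t n • f (φ (2 * n + 1)))‖ ≤
        Real.sqrt (ε / 2 / 2 ^ n) := by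
      rw [map_add, map_smul, map_smul]
      refine (norm_add_le _ _).trans ?_
      rw [norm_smul, norm_smul]
      have b1 := mul_le_of_le_one_left (norm_nonneg (A (f (φ (2 * n))))) (k3 n)
      have b2 := mul_le_of_le_one_left (norm_nonneg (A (f (φ (2 * n + 1))))) (k4 n)
      linarith
    exact (pow_le_pow_left₀ (norm_nonneg _) a3 2).trans (Real.sq_sqrt (by positivity)).le

theorem exists_basis [TopologicalSpace.SeparableSpace H] (A : H →L[ℂ] H) (f : ℕ → H)
    (hf : Orthonormal ℂ f) (hA : Tendsto (fun n => A (f n)) atTop (𝓝 0)) (x : H) (hx : ‖x‖ = 1)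
    {ε : ℝ} (hε : 0 < ε) :
    ∃ (b : HilbertBasis (ℕ × ℤ) ℂ H) (i0 : ℕ × ℤ), i0.1 = 0 ∧ b i0 = x ∧
      Summable (fun i => ((1 / 2 : ℝ) ^ i.1) ^ 2 * ‖A (b i)‖ ^ 2) ∧
      ∑' i, (if i = i0 then 0 else if i.1 = 0 then ‖A (b i)‖ₑ ^ 2 else 0) ≤
        ENNReal.ofReal ε := by
  classical
  obtain ⟨g, g1, g2, g3⟩ := exists_perp_seq A f hf hA x hε
  have hginj : Function.Injective g := g1.linearIndependent.injective
  have hxg : ∀ s, x ≠ g s := fun s h => by
    have h1 := g2 s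
    rw [← h, inner_self_eq_zero] at h1
    rw [h1] at hx
    simp at hx
  have hG : Orthonormal ℂ ((↑) : {e | e = x ∨ ∃ s, e = g s} → H) := by
    refine ⟨?_, ?_⟩
    · rintro ⟨e, rfl | ⟨s, rfl⟩⟩
      · exact hx
      · exact g1.1 s
    · rintro ⟨e, rfl | ⟨s, rfl⟩⟩ ⟨e', rfl | ⟨r, rfl⟩⟩ hne
      · exact absurd rfl hne
      · exact g2 r
      · exact inner_eq_zero_symm.1 (g2 s)
      · exact g1.2 fun h => hne (by subst h; rfl)
  obtain ⟨w, b, hw, hb⟩ := hG.exists_hilbertBasis_extension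
  have : Countable w := countable_of_orthonormal b.orthonormal
  obtain ⟨inj, hinj⟩ := Countable.exists_injective_nat w
  let γ : ℕ → w := fun s => ⟨g s, hw (Or.inr ⟨s, rfl⟩)⟩
  have hγ : Function.Injective γ := fun s r h => hginj (congrArg Subtype.val h)
  let x0 : w := ⟨x, hw (Or.inl rfl)⟩
  let lab : w → ℕ := fun i =>
    if h : ∃ s, i = γ s then (Nat.unpair h.choose).1 else if i = x0 then 0 else inj i + 1
  have hlab : ∀ s, lab (γ s) = (Nat.unpair s).1 := by
    intro s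
    have h : ∃ r, γ s = γ r := ⟨s, rfl⟩
    simp only [lab, dif_pos h]
    rw [← hγ h.choose_spec]
  have hx0 : ¬ ∃ s, x0 = γ s := fun ⟨s, hs⟩ => hxg s (congrArg Subtype.val hs)
  have hinf : ∀ n, Infinite {i : w // lab i = n} := fun n => by
    refine Infinite.of_injective (fun k : ℕ => (⟨γ (Nat.pair n k), by
      rw [hlab, Nat.unpair_pair]⟩ : {i : w // lab i = n})) fun k l hkl => ?_
    exact (Nat.pair_eq_pair.1 (hγ (congrArg Subtype.val hkl))).2
  have hfib : ∀ n, Nonempty ({i : w // lab i = n} ≃ ℤ) := fun n => nonempty_equiv_of_countable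
  let σ : w ≃ ℕ × ℤ := (Equiv.sigmaFiberEquiv lab).symm.trans
    ((Equiv.sigmaCongrRight fun n => (hfib n).some).trans (Equiv.sigmaEquivProd ℕ ℤ))
  have hσ : ∀ i, (σ i).1 = lab i := fun i => rfl
  have hσ' : ∀ j, lab (σ.symm j) = j.1 := fun j => by rw [← hσ, Equiv.apply_symm_apply]
  have horth : Orthonormal ℂ (b ∘ σ.symm) := b.orthonormal.comp _ σ.symm.injective
  have hsp : ⊤ ≤ (Submodule.span ℂ (Set.range (b ∘ σ.symm))).topologicalClosure := by
    rw [σ.symm.surjective.range_comp, b.dense_span]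
  have hb' : ∀ j, HilbertBasis.mk horth hsp j = (σ.symm j : H) := fun j => by
    rw [HilbertBasis.coe_mk, Function.comp_apply, hb]
  have hsg : Summable fun s => ‖A (g s)‖ ^ 2 :=
    Summable.of_nonneg_of_le (fun _ => by positivity) g3 (summable_geometric_two' ε)
  refine ⟨HilbertBasis.mk horth hsp, σ x0, ?_, ?_, ?_, ?_⟩
  · rw [hσ]
    simp only [lab, dif_neg hx0, if_true]
  · rw [hb', Equiv.symm_apply_apply]
  · simp only [hb', ← hσ']
    refine (σ.symm.summable_iff
      (f := fun i : w => ((1 / 2 : ℝ) ^ lab i) ^ 2 * ‖A (i : H)‖ ^ 2)).2 ?_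
    have hs1 : Summable fun i : w => if ∃ s, i = γ s then ‖A (i : H)‖ ^ 2 else 0 := by
      refine (hγ.summable_iff fun i hi => if_neg fun ⟨s, hs⟩ => hi ⟨s, hs.symm⟩).1 ?_
      refine hsg.congr fun s => ?_
      simp only [Function.comp_apply]
      rw [if_pos ⟨s, rfl⟩]
    have hs2 : Summable fun i : w => (1 / 2 : ℝ) ^ inj i * ‖A‖ ^ 2 :=
      (summable_geometric_two.comp_injective hinj).mul_right _
    have hs3 : Summable fun i : w => if i = x0 then ‖A x‖ ^ 2 else 0 :=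
      (hasSum_ite_eq x0 _).summable
    refine Summable.of_nonneg_of_le (fun i => by positivity) (fun i => ?_) ((hs1.add hs2).add hs3)
    have hq : ∀ m : ℕ, ((1 / 2 : ℝ) ^ m) ^ 2 ≤ (1 / 2) ^ m ∧ (1 / 2 : ℝ) ^ m ≤ 1 := fun m => by
      have h7 : (1 / 2 : ℝ) ^ m ≤ 1 := pow_le_one₀ (by norm_num) (by norm_num)
      have h8 : (0 : ℝ) ≤ (1 / 2) ^ m := by positivity
      exact ⟨by nlinarith, h7⟩
    have h9 : (0 : ℝ) ≤ (1 / 2) ^ inj i * ‖A‖ ^ 2 := by positivity
    by_cases h : ∃ s, i = γ s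
    · have h' : i ≠ x0 := fun h' => hx0 (h' ▸ h)
      rw [if_pos h, if_neg h']
      have := (hq (lab i)).1.trans (hq (lab i)).2
      nlinarith [sq_nonneg ‖A (i : H)‖]
    · by_cases h' : i = x0
      · subst h'
        simp only [lab, dif_neg h, if_neg h, if_true, pow_zero, one_pow, one_mul]
        linarith
      · rw [if_neg h, if_neg h', zero_add, add_zero]
        simp only [lab, dif_neg h, if_neg h']
        have h11 := A.le_opNorm (i : H)
        have h10 : ‖(i : H)‖ = 1 := by have := b.orthonormal.1 i; rwa [hb] at this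
        rw [h10, mul_one] at h11
        refine mul_le_mul ((hq _).1.trans ?_) (pow_le_pow_left₀ (norm_nonneg _) h11 2)
          (by positivity) (by positivity)
        exact pow_le_pow_of_le_one (by norm_num) (by norm_num) (Nat.le_succ _)
  · have e1 : ∑' i : w, (if ∃ s, i = γ s then ‖A (i : H)‖ₑ ^ 2 else 0) ≤ ENNReal.ofReal ε := by
      rw [← hγ.tsum_eq (f := fun i : w => if ∃ s, i = γ s then ‖A (i : H)‖ₑ ^ 2 else 0)
        (fun i hi => by
          by_contra h
          exact hi (if_neg fun ⟨s, hs⟩ => h ⟨s, hs.symm⟩))]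
      have e2 : ∀ s, (if ∃ r, γ s = γ r then ‖A (γ s : H)‖ₑ ^ 2 else 0) =
          ENNReal.ofReal (‖A (g s)‖ ^ 2) := fun s => by
        rw [if_pos ⟨s, rfl⟩, enorm_sq_ofReal]
      simp only [e2]
      rw [← ENNReal.ofReal_tsum_of_nonneg (fun n => by positivity) hsg]
      refine ENNReal.ofReal_le_ofReal ?_
      rw [← tsum_geometric_two' ε]
      exact hsg.tsum_le_tsum g3 (summable_geometric_two' ε)
    refine le_trans ?_ e1
    rw [← σ.tsum_eq]
    refine ENNReal.tsum_le_tsum fun i => ?_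
    rw [hb', Equiv.symm_apply_apply, hσ]
    by_cases h : ∃ s, i = γ s
    · rw [if_pos h]
      split_ifs <;> simp
    · by_cases h' : i = x0
      · rw [if_pos (congrArg σ h')]
        exact zero_le
      · have : lab i ≠ 0 := by simp only [lab, dif_neg h, if_neg h']; omega
        rw [if_neg this]
        simp

end abstract

end Pool.Agent.FS.RowCol
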