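import Pool.Agent.FS.RowCol.A

namespace Pool.Agent.FS.RowCol

open MeasureTheory Set Filter Topology ContinuousLinearMap Pool.Agent.Lib.MP_0ee9ff_an
open scoped ENNReal NNReal InnerProductSpace ComplexConjugate

variable {X : Type*} [MeasurableSpace X] {μ : Measure X}

theorem key_row [SFinite μ] {ι : Type*} [Countable ι] (b : HilbertBasis ι ℂ (Lp ℂ 2 μ))
    (N : Lp ℂ 2 μ →L[ℂ] Lp ℂ 2 μ) (ν : X → X → ℂ)
    (hm : AEStronglyMeasurable (Function.uncurry ν) (μ.prod μ))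
    (hC : ∀ᵐ x ∂μ, ∫⁻ y, ‖ν x y‖ₑ ^ 2 ∂μ < ∞)
    (hN : ∀ f : Lp ℂ 2 μ, ∀ᵐ x ∂μ, N f x = ∫ y, ν x y * f y ∂μ)
    {S : Set X} (hS : MeasurableSet S) :
    ∑' j, ‖adjoint N (ind hS (b j))‖ₑ ^ 2 = ∫⁻ y in S, ∫⁻ x, ‖ν y x‖ₑ ^ 2 ∂μ ∂μ := by
  have h2 := key b N ν hm hC hN MeasurableSet.univ hS
  simp only [ind_univ, Measure.restrict_univ] at h2
  rw [← h2]
  simp only [← parseval b]
  rw [ENNReal.tsum_comm]
  congr 1
  ext i
  congr 1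
  ext j
  rw [adjoint_inner_left, ← inner_ind, ← inner_conj_symm]
  simp only [RCLike.enorm_conj]

theorem exists_test (a b : EReal) (hab : a < b)
    (T : Lp ℂ 2 (volume.restrict {x : ℝ | a < (x : EReal) ∧ (x : EReal) < b}) →L[ℂ]
      Lp ℂ 2 (volume.restrict {x : ℝ | a < (x : EReal) ∧ (x : EReal) < b}))
    (f : ℕ → Lp ℂ 2 (volume.restrict {x : ℝ | a < (x : EReal) ∧ (x : EReal) < b}))
    (hf : Orthonormal ℂ f) (hA : Tendsto (fun n => adjoint T (f n)) atTop (𝓝 0))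
    (x : Lp ℂ 2 (volume.restrict {x : ℝ | a < (x : EReal) ∧ (x : EReal) < b})) (hx : ‖x‖ = 1)
    {ε : ℝ} (hε : 0 < ε) :
    ∃ (U : _ ≃ₗᵢ[ℂ] _) (ν : ℝ → ℝ → ℂ) (S : Set ℝ)
      (v : ℕ × ℤ → Lp ℂ 2 (volume.restrict {x : ℝ | a < (x : EReal) ∧ (x : EReal) < b})),
      AEStronglyMeasurable (Function.uncurry ν)
        ((volume.restrict {x : ℝ | a < (x : EReal) ∧ (x : EReal) < b}).prod
          (volume.restrict {x : ℝ | a < (x : EReal) ∧ (x : EReal) < b})) ∧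
      (∀ᵐ x ∂(volume.restrict {x : ℝ | a < (x : EReal) ∧ (x : EReal) < b}),
        ∫⁻ y, ‖ν x y‖ₑ ^ 2 ∂(volume.restrict {x : ℝ | a < (x : EReal) ∧ (x : EReal) < b}) < ∞) ∧
      (∀ f, ∀ᵐ x ∂(volume.restrict {x : ℝ | a < (x : EReal) ∧ (x : EReal) < b}),
        conjOp U T f x = ∫ y, ν x y * f y
          ∂(volume.restrict {x : ℝ | a < (x : EReal) ∧ (x : EReal) < b})) ∧
      ‖T x‖ₑ ^ 2 + ∑' j, ‖T (v j)‖ₑ ^ 2 =
        ∫⁻ y in S, ∫⁻ x, ‖ν x y‖ₑ ^ 2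
          ∂(volume.restrict {x : ℝ | a < (x : EReal) ∧ (x : EReal) < b})
          ∂(volume.restrict {x : ℝ | a < (x : EReal) ∧ (x : EReal) < b}) ∧
      ‖adjoint T x‖ₑ ^ 2 + ∑' j, ‖adjoint T (v j)‖ₑ ^ 2 =
        ∫⁻ y in S, ∫⁻ x, ‖ν y x‖ₑ ^ 2
          ∂(volume.restrict {x : ℝ | a < (x : EReal) ∧ (x : EReal) < b})
          ∂(volume.restrict {x : ℝ | a < (x : EReal) ∧ (x : EReal) < b}) ∧
      ∑' j, ‖adjoint T (v j)‖ₑ ^ 2 ≤ ENNReal.ofReal ε := by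
  classical
  have : Fact ((2 : ℝ≥0∞) ≠ ∞) := ⟨by norm_num⟩
  obtain ⟨c, d, h1, h2, h3⟩ := exists_partition a b hab
  obtain ⟨φ, hφ⟩ := exists_fourier_basis _ c d h1 h2 h3
  obtain ⟨e, i0, g1, g2, g3, g4⟩ := exists_basis (adjoint T) f hf hA x hx hε
  let U := e.repr.trans φ.repr.symm
  have hU : ∀ i, U.symm (φ i) = e i := fun i => by
    change e.repr.symm (φ.repr (φ i)) = e i
    rw [φ.repr_self, e.repr_symm_single]
  have hc : ∀ᵐ x ∂(volume.restrict {x : ℝ | a < (x : EReal) ∧ (x : EReal) < b}),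
      ∃ n, x ∈ Ioc (c n) (d n) := by
    rw [← h3]
    filter_upwards [ae_restrict_mem (MeasurableSet.iUnion fun n => measurableSet_Ioc)] with x hx
    exact mem_iUnion.1 hx
  have hz : ∀ i, ∀ᵐ x ∂(volume.restrict {x : ℝ | a < (x : EReal) ∧ (x : EReal) < b}),
      x ∉ Ioc (c i.1) (d i.1) → φ i x = 0 := fun i => by
    filter_upwards [hφ i] with x hx h
    rw [indicator_of_notMem h] at hx
    simpa using hx
  obtain ⟨ν, k1, k2, k3⟩ := exists_carleman φ Prod.fst (fun n => Ioc (c n) (d n))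
    (fun n => measurableSet_Ioc) h2 hc hz (conjOp U T)
    (by simpa only [adjoint_conjOp, U.norm_map, hU] using g3)
  have hS : MeasurableSet (Ioc (c 0) (d 0)) := measurableSet_Ioc
  have hind : ∀ j, ind hS (φ j) = if j.1 = 0 then φ j else 0 := fun j => by
    refine Lp.ext ?_
    split_ifs with h
    · filter_upwards [ind_ae hS (φ j), hz j] with y y1 y2
      rw [y1]
      by_cases hy : y ∈ Ioc (c 0) (d 0)
      · rw [indicator_of_mem hy]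
      · rw [indicator_of_notMem hy, y2 (h ▸ hy)]
    · filter_upwards [ind_ae hS (φ j), hz j, Lp.coeFn_zero ℂ 2
        (volume.restrict {x : ℝ | a < (x : EReal) ∧ (x : EReal) < b})] with y y1 y2 y3
      rw [y1, y3]
      by_cases hy : y ∈ Ioc (c 0) (d 0)
      · rw [indicator_of_mem hy, y2 fun h' => Set.disjoint_left.1 (h2 h) h' hy]
        rfl
      · rw [indicator_of_notMem hy]
        rfl
  have hsplit : ∀ A : Lp ℂ 2 (volume.restrict {x : ℝ | a < (x : EReal) ∧ (x : EReal) < b}) →L[ℂ]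
      Lp ℂ 2 (volume.restrict {x : ℝ | a < (x : EReal) ∧ (x : EReal) < b}),
      ‖A x‖ₑ ^ 2 + ∑' j, ‖A (if j = i0 then 0 else if j.1 = 0 then e j else 0)‖ₑ ^ 2 =
        ∑' j, ‖U (A (U.symm (ind hS (φ j))))‖ₑ ^ 2 := fun A => by
    have e1 : ∀ j, ‖U (A (U.symm (ind hS (φ j))))‖ₑ ^ 2 =
        ‖A (if j.1 = 0 then e j else 0)‖ₑ ^ 2 := fun j => by
      rw [enorm_sq_ofReal, enorm_sq_ofReal, U.norm_map, hind]
      split_ifs
      · rw [hU]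
      · rw [map_zero]
    simp only [e1]
    rw [ENNReal.tsum_eq_add_tsum_ite (f := fun j => ‖A (if j.1 = 0 then e j else 0)‖ₑ ^ 2) i0]
    simp only [if_pos g1, g2]
    congr 2
    ext j
    split_ifs <;> simp
  refine ⟨U, ν, Ioc (c 0) (d 0), fun j => if j = i0 then 0 else if j.1 = 0 then e j else 0,
    k1, k2, k3, ?_, ?_, ?_⟩
  · rw [hsplit, ← key_col φ (conjOp U T) ν k1 k2 k3 hS]
    rfl
  · rw [hsplit, ← key_row φ (conjOp U T) ν k1 k2 k3 hS]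
    simp only [adjoint_conjOp]
  · refine le_trans (le_of_eq ?_) g4
    congr 1
    ext j
    dsimp only
    split_ifs <;> simp

theorem conv {E : Type*} [SeminormedAddCommGroup E] (p q : ℝ≥0) (u w : E) :
    (p : ℝ≥0∞) * ‖u‖ₑ ^ 2 ≤ q * ‖w‖ₑ ^ 2 ↔ (p : ℝ) * ‖u‖ ^ 2 ≤ q * ‖w‖ ^ 2 := by
  have h : ∀ (p : ℝ≥0) (u : E), (p : ℝ≥0∞) * ‖u‖ₑ ^ 2 = ENNReal.ofReal (p * ‖u‖ ^ 2) :=
    fun p u => by
      rw [enorm_sq_ofReal, ENNReal.ofReal_mul p.coe_nonneg, ENNReal.ofReal_coe_nnreal]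
  rw [h, h, ENNReal.ofReal_le_ofReal_iff (by positivity)]

theorem bounds_of_tests {H : Type*} [NormedAddCommGroup H] [InnerProductSpace ℂ H]
    (A B : H →L[ℂ] H) (m M : ℝ≥0)
    (h : ∀ x : H, ‖x‖ = 1 → ∀ ε : ℝ, 0 < ε → ∃ v : ℕ × ℤ → H,
      m * (‖B x‖ₑ ^ 2 + ∑' j, ‖B (v j)‖ₑ ^ 2) ≤ ‖A x‖ₑ ^ 2 + ∑' j, ‖A (v j)‖ₑ ^ 2 ∧
      ‖A x‖ₑ ^ 2 + ∑' j, ‖A (v j)‖ₑ ^ 2 ≤ M * (‖B x‖ₑ ^ 2 + ∑' j, ‖B (v j)‖ₑ ^ 2) ∧
      ∑' j, ‖B (v j)‖ₑ ^ 2 ≤ ENNReal.ofReal ε) (x : H) :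
    (m : ℝ) * ‖B x‖ ^ 2 ≤ ‖A x‖ ^ 2 ∧ ‖A x‖ ^ 2 ≤ M * ‖B x‖ ^ 2 := by
  have scale : ∀ (p q : ℝ≥0) (A B : H →L[ℂ] H),
      (∀ x, ‖x‖ = 1 → (p : ℝ≥0∞) * ‖A x‖ₑ ^ 2 ≤ q * ‖B x‖ₑ ^ 2) →
      ∀ x, (p : ℝ) * ‖A x‖ ^ 2 ≤ q * ‖B x‖ ^ 2 := fun p q A B hAB x => by
    by_cases hx : x = 0
    · simp [hx]
    have h0 : 0 < ‖x‖ := norm_pos_iff.2 hx
    have h1 := hAB (((‖x‖⁻¹ : ℝ) : ℂ) • x) (by
      rw [norm_smul, Complex.norm_real, norm_inv, norm_norm, inv_mul_cancel₀ h0.ne'])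
    rw [conv, map_smul, map_smul, norm_smul, norm_smul, Complex.norm_real, norm_inv,
      norm_norm] at h1
    refine le_of_mul_le_mul_left ?_ (pow_pos (inv_pos.2 h0) 2)
    linarith
  have small : ∀ ε : ℝ≥0, (M : ℝ≥0∞) * ENNReal.ofReal (ε / (M + 1)) ≤ ε := fun ε => by
    rw [← ENNReal.ofReal_coe_nnreal (p := M), ← ENNReal.ofReal_mul M.coe_nonneg,
      ← ENNReal.ofReal_coe_nnreal (p := ε)]
    refine ENNReal.ofReal_le_ofReal ?_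
    rw [← mul_div_assoc, div_le_iff₀ (by positivity)]
    nlinarith [ε.coe_nonneg]
  have h1 : ∀ x, ((1 : ℝ≥0) : ℝ) * ‖A x‖ ^ 2 ≤ M * ‖B x‖ ^ 2 := scale _ _ _ _ fun x hx => by
    refine ENNReal.le_of_forall_pos_le_add fun ε hε _ => ?_
    obtain ⟨v, -, k1, k2⟩ := h x hx (ε / (M + 1)) (by positivity)
    rw [ENNReal.coe_one, one_mul]
    refine (le_self_add.trans k1).trans ?_
    rw [mul_add]
    exact add_le_add le_rfl (le_trans (by gcongr) (small ε))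
  have h2 : ∀ x, (m : ℝ) * ‖B x‖ ^ 2 ≤ ((1 : ℝ≥0) : ℝ) * ‖A x‖ ^ 2 :=
    scale _ _ _ _ fun x hx => by
      refine ENNReal.le_of_forall_pos_le_add fun ε hε _ => ?_
      obtain ⟨v, k1, -, k2⟩ := h x hx (ε / (M + 1)) (by positivity)
      rw [ENNReal.coe_one, one_mul]
      rw [mul_add] at k1
      refine (le_self_add.trans k1).trans (add_le_add le_rfl ?_)
      refine le_trans ?_ (le_trans (by gcongr : (M : ℝ≥0∞) * ∑' j, ‖B (v j)‖ₑ ^ 2 ≤ _) (small ε))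
      rw [← ENNReal.tsum_mul_left]
      refine ENNReal.tsum_le_tsum fun j => ?_
      have := (conv 1 M _ _).2 (h1 (v j))
      rwa [ENNReal.coe_one, one_mul] at this
  exact ⟨by simpa using h2 x, by simpa using h1 x⟩

theorem kernel_bounds [SigmaFinite μ] [IsSeparable μ]
    (N : Lp ℂ 2 μ →L[ℂ] Lp ℂ 2 μ) (m M : ℝ≥0)
    (h : ∀ f, (m : ℝ) * ‖adjoint N f‖ ^ 2 ≤ ‖N f‖ ^ 2 ∧ ‖N f‖ ^ 2 ≤ M * ‖adjoint N f‖ ^ 2)
    (ν : X → X → ℂ) (hm : AEStronglyMeasurable (Function.uncurry ν) (μ.prod μ))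
    (hC : ∀ᵐ x ∂μ, ∫⁻ y, ‖ν x y‖ₑ ^ 2 ∂μ < ∞)
    (hN : ∀ f : Lp ℂ 2 μ, ∀ᵐ x ∂μ, N f x = ∫ y, ν x y * f y ∂μ) :
    ∀ᵐ y ∂μ, m * ∫⁻ x, ‖ν y x‖ₑ ^ 2 ∂μ ≤ ∫⁻ x, ‖ν x y‖ₑ ^ 2 ∂μ ∧
      ∫⁻ x, ‖ν x y‖ₑ ^ 2 ∂μ ≤ M * ∫⁻ x, ‖ν y x‖ₑ ^ 2 ∂μ := by
  have : Fact ((2 : ℝ≥0∞) ≠ ∞) := ⟨by norm_num⟩
  obtain ⟨w, b, -⟩ := exists_hilbertBasis ℂ (Lp ℂ 2 μ)
  have : Countable w := countable_of_orthonormal b.orthonormal
  have hm2 : AEMeasurable (Function.uncurry fun x y => ‖ν x y‖ₑ ^ 2) (μ.prod μ) :=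
    hm.enorm.pow_const 2
  refine Filter.Eventually.and ?_ ?_
  · refine ae_le_of_forall_setLIntegral_le_of_sigmaFinite₀
      (hm2.lintegral_prod_right.const_mul _) fun S hS _ => ?_
    rw [lintegral_const_mul' _ _ ENNReal.coe_ne_top, ← key_col b N ν hm hC hN hS,
      ← key_row b N ν hm hC hN hS, ← ENNReal.tsum_mul_left]
    refine ENNReal.tsum_le_tsum fun j => ?_
    have := (conv m 1 (adjoint N (ind hS (b j))) (N (ind hS (b j)))).2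
      (by rw [NNReal.coe_one, one_mul]; exact (h _).1)
    rwa [ENNReal.coe_one, one_mul] at this
  · refine ae_le_of_forall_setLIntegral_le_of_sigmaFinite₀ hm2.lintegral_prod_left
      fun S hS _ => ?_
    rw [lintegral_const_mul' _ _ ENNReal.coe_ne_top, ← key_col b N ν hm hC hN hS,
      ← key_row b N ν hm hC hN hS, ← ENNReal.tsum_mul_left]
    refine ENNReal.tsum_le_tsum fun j => ?_
    have := (conv 1 M (N (ind hS (b j))) (adjoint N (ind hS (b j)))).2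
      (by rw [NNReal.coe_one, one_mul]; exact (h _).2)
    rwa [ENNReal.coe_one, one_mul] at this

end Pool.Agent.FS.RowCol
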